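import Pool.Agent.Lib.helper21.Weih

set_option autoImplicit false

namespace Pool.Agent.Results.MP_62990a_lc.Yes

open Cardinal Pool.Agent.Lib.helper21.Wh

/-- a set of Weihrauch degrees is cofinal -/
def Cofinal (S : Set (Quotient st)) : Prop := ∀ f : Pb, ∃ g : Pb, Quotient.mk st g ∈ S ∧ Le f g

theorem result (S : Set (Quotient st)) (h : Cofinal S) : Cardinal.mk S = 2 ^ continuum := by
  have h0 : Cardinal.mk (ℕ → ℕ) = continuum := by simp
  refine le_antisymm ((mk_set_le S).trans (mk_quotient_le.trans_eq ?_)) (not_lt.1 fun c => ?_)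
  · rw [mk_pi, prod_const', mk_set, h0, ← power_mul, continuum_mul_self]
  have h1 : ∀ F : (ℕ → ℕ) → ℕ → ℕ, ∃ d : S × ℕ × ℕ, ∀ p, ∃ x, Maps (U d.2.1) p x ∧
      (d.1.1.out x).Nonempty ∧ ∀ q ∈ d.1.1.out x, Maps (U d.2.2) (jn p q) (F p) := fun F => by
    obtain ⟨g, a, b⟩ := h fun p => {F p}
    obtain ⟨A, B, c1, c2, c3⟩ := b.trans (Quotient.mk_out (s := st) g).2
    obtain ⟨i, rfl⟩ := ex_U c1
    obtain ⟨j, rfl⟩ := ex_U c2
    exact ⟨(⟨_, a⟩, i, j), fun p => (c3 p ⟨_, rfl⟩).imp fun _ k => ⟨k.1, k.2.1, fun q e =>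
      let ⟨_, k1, k2⟩ := k.2.2 q e; (k1 : _ = F p) ▸ k2⟩⟩
  choose d hd using h1
  have h2 := mk_le_of_injective (f := d) fun F G e => funext fun p => by
    obtain ⟨x, a, ⟨q, b⟩, c⟩ := hd F p
    obtain ⟨y, a', -, c'⟩ := hd G p
    rw [← e] at a' c'
    exact (c q b).uniq (c' q (a.uniq a' ▸ b))
  rw [mk_pi, prod_const', h0, power_self_eq aleph0_le_continuum, mk_prod] at h2
  refine h2.not_gt (mul_lt_of_lt (aleph0_le_continuum.trans (cantor _).le) (by simpa) ?_)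
  simpa using aleph0_lt_continuum.trans (cantor _)

end Pool.Agent.Results.MP_62990a_lc.Yes
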